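import Pool.Agent.helper83.OD.Spec

set_option autoImplicit false

open Finset

namespace Pool.Agent.OD

theorem CNT_bound (y M p s : ℕ) (hy : 196 ≤ y) (hM : M ≤ 14 * y) (hp : p ≤ 2 * y) (hR : Rel M p s) :
    s ≤ 9 * y ^ 2 := by
  rcases hR with ⟨u, h1, h2⟩ | ⟨u, h1, h2⟩ | ⟨u, h1, h2⟩
  · have h3 : 7 * p * (M - 16 * u ^ 2) ≤ 7 * (2 * y) * (14 * y) :=
      Nat.mul_le_mul (by omega) (by omega)
    nlinarith
  · have h3 : p * (M - 16 * u ^ 2) ≤ (2 * y) * (14 * y) :=
      Nat.mul_le_mul (by omega) (by omega)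
    nlinarith
  · have h3 : (7 * p - 16 * u ^ 2) * M ≤ (14 * y) * (14 * y) :=
      Nat.mul_le_mul (by omega) (by omega)
    nlinarith

theorem CNT (hEVO : EVO_stmt) (hFIB : FIB_stmt) (hEXO : EXO_stmt) : CNT_stmt := by
  classical
  intro y hy
  have hsub : P5 (7 * y) ×ˢ P5 y ⊆
      ({n ∈ range (9 * y ^ 2 + 1) | Odd (Fintype.card (Nat.Partition n))}.biUnion (Fi y)) ∪ Ex y := by
    intro x hx
    by_cases hex : x ∈ Ex y
    · exact mem_union_right _ hex
    · refine mem_union_left _ ?_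
      obtain ⟨M, p⟩ := x
      obtain ⟨s, hs, hR⟩ := hEVO y M p hx hex
      refine mem_biUnion.2 ⟨s, mem_filter.2 ⟨mem_range.2 ?_, hs⟩, ?_⟩
      · have h1 := (mem_product.1 hx).1
        have h2 := (mem_product.1 hx).2
        unfold P5 at h1 h2
        have h3 := (mem_Ioc.1 (mem_filter.1 h1).1).2
        have h4 := (mem_Ioc.1 (mem_filter.1 h2).1).2
        have := CNT_bound y M p s hy (by simp only at h3; omega) (by simpa using h4) hR
        omega
      · unfold Fi
        exact mem_filter.2 ⟨hx, hR⟩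
  have h1 := card_le_card hsub
  rw [card_product] at h1
  have h2 := card_union_le
    ({n ∈ range (9 * y ^ 2 + 1) | Odd (Fintype.card (Nat.Partition n))}.biUnion (Fi y)) (Ex y)
  have h3 : #({n ∈ range (9 * y ^ 2 + 1) | Odd (Fintype.card (Nat.Partition n))}.biUnion (Fi y)) ≤
      6 * (Nat.sqrt y + 1) * sO (9 * y ^ 2) := by
    refine (card_biUnion_le).trans ?_
    refine (sum_le_card_nsmul _ _ (6 * (Nat.sqrt y + 1)) (fun s _ => hFIB y s hy)).trans ?_
    unfold sO
    simp only [smul_eq_mul]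
    rw [mul_comm]
  have h4 := hEXO y
  omega

end Pool.Agent.OD
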