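import Pool.Agent.helper7.EP.SpecA

/-!
# Project od: (MP_ebc808_nt): odd values of the partition function

`#{n ≤ X : p(n) odd} ≥ c X^(3/4)/(log X)^2` for all large `X`.

Idea. `θ = vvx = 1/ww` has the exponents `u^2`, `u` prime to 6, and `θ^4 θ = θ^5` has the exponents `a^2 + 4 b^2`,
`θ^8 θ^3 = θ^11` the exponents `3 c^2 + 8 d^2`. For `n = 11 mod 24` let `f_n` be the element of `WW` with coefficients
`JG ac n`. It is a combination of `ww^i`, `i = 11 mod 24`, so `f_n θ^16` is in `WW` up to a multiple of `θ^5`. The sum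
`f_n θ^16 + ∑_u f_(n-16u^2)` has no negative part, so it is `r11(n) θ^5`. For primes `M, p = 5 mod 24` and `n = 7 p` the
coefficient at `x^M` is `1`: one of at most `√M + √n` explicit values of the partition function is odd.

Everything of `Pool/Agent/helper7/EP` may be used: `import Pool.Agent.helper7.EP.AllA` gives the theorems
`all_JW : JW_stmt`, `JN : JN_stmt`, `all_NEG : NEG_stmt`, `WM : WM_stmt`, `FRO : FRO_stmt`, `VTH : VTH_stmt` (namespace
`Pool.Agent.EP`). Module `XX`: file `Pool/Agent/<seat>/OD/XX.lean`, `import Pool.Agent.helper83.OD.Spec` (and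
`Pool.Agent.helper7.EP.AllA` if you use its theorems), namespace `Pool.Agent.OD`, auxiliary lemmas prefixed `XX_`.
-/

set_option autoImplicit false

open Finset PowerSeries

noncomputable section

namespace Pool.Agent.OD

open Pool.Agent.EP

/-! ### Definitions -/

/-- The number of `n ≤ X` with `p(n)` odd. -/
def sO (X : ℕ) : ℕ := #{n ∈ range (X + 1) | Odd (Fintype.card (Nat.Partition n))}

/-- The numbers `u` prime to `6` with `16 u^2 ≤ N`. -/
def uu (N : ℕ) : Finset ℕ := {u ∈ range (N + 1) | u.Coprime 6 ∧ 16 * u ^ 2 ≤ N}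

/-- The primes of `(y, 2y]` in the class `5` modulo `24`. -/
def P5 (y : ℕ) : Finset ℕ := {p ∈ Ioc y (2 * y) | p.Prime ∧ p % 24 = 5}

open Classical in
/-- The exceptional pairs `(M, p)`. -/
def Ex (y : ℕ) : Finset (ℕ × ℕ) :=
  {x ∈ P5 (7 * y) ×ˢ P5 y | (∃ u : ℕ, x.1 + 7 * x.2 = 16 * u ^ 2) ∨
    (∃ u : ℕ, 16 * u ^ 2 < x.1 ∧ x.2 ∣ x.1 - 16 * u ^ 2) ∨
    (∃ u : ℕ, 16 * u ^ 2 < 7 * x.2 ∧ x.1 ∣ 7 * x.2 - 16 * u ^ 2)}

/-- The relation between a pair `(M, p)` and a number `s` it leads to. -/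
def Rel (M p s : ℕ) : Prop :=
  (∃ u : ℕ, 16 * u ^ 2 < M ∧ 24 * s = 7 * p * (M - 16 * u ^ 2) + 1) ∨
  (∃ u : ℕ, 16 * u ^ 2 < M ∧ 7 * (24 * s) = p * (M - 16 * u ^ 2) + 7) ∨
  (∃ u : ℕ, 16 * u ^ 2 < 7 * p ∧ 24 * s = (7 * p - 16 * u ^ 2) * M + 1)

open Classical in
/-- The pairs which lead to `s`. -/
def Fi (y s : ℕ) : Finset (ℕ × ℕ) := {x ∈ P5 (7 * y) ×ˢ P5 y | Rel x.1 x.2 s}

/-! ### The series -/

open Classical in
/-- **V1** (short, 60 lines). The coefficients of `vvx = x E(x^24)`: `1` at the squares of the numbers prime to `6`, `0`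
elsewhere. Proof. By definition the coefficient at `N` is the coefficient of `EE` at `k` if `N = 24 k + 1`, `k ≥ 0`, else `0`
(coefficients of `single 1 1 * ofPowerSeries (expand 24 _)` as in Pool/Agent/helper59/EP/WM.lean or
Pool/Agent/helper99/EP/VTH.lean). `helper81.EE` is the pentagonal series modulo 2 (see its definition in
Pool/Agent/helper81/PMGauss.lean): its coefficient at `k` is `1` iff `k = m(3m-1)/2` for some integer `m`, and `24 k + 1 = (6m-1)^2`;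
every `u > 0` prime to `6` is `|6m-1|` for exactly one integer `m`. -/
def V1_stmt : Prop := ∀ N : ℤ, vvx.coeff N =
  if ∃ u : ℕ, u.Coprime 6 ∧ N = (u : ℤ) ^ 2 then 1 else 0

/-- **V16** (medium, 80 lines; uses V1 and `FRO`; adapt Pool/Agent/helper99/EP/PRD.lean). The coefficients of `f * vvx^16` if
`f` has no term below `-k`. Proof. By FRO (`a = 4`, `2^4 = 16`) and V1 the coefficient of `vvx^16` at `j` is `1` iff `j = 16 u^2`
with `u` prime to `6`, else `0`. `HahnSeries.coeff_mul`: the pairs `(i, j)` in the supports with `i + j = M` are the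
`(M - 16 u^2, 16 u^2)` with `f.coeff (M - 16 u^2) ≠ 0`, and these satisfy `M - 16 u^2 ≥ -k`, i.e. `u ∈ uu (M + k).toNat`
(`u ≤ 16 u^2`). For `u ∈ uu` the term is the coefficient of `f` (zero or not). (If `M + k < 0` then `toNat = 0`, `uu 0` is empty since
`0` is not prime to `6`, and the coefficient is `0`.) -/
def V16_stmt : Prop := ∀ (k : ℕ) (f : KK), (∀ N : ℤ, N < -(k : ℤ) → f.coeff N = 0) → ∀ M : ℤ,
  (f * vvx ^ 16).coeff M = ∑ u ∈ uu (M + k).toNat, f.coeff (M - 16 * (u : ℤ) ^ 2)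

open Classical in
/-- **V5** (medium, 70 lines; uses V1 and `FRO`). `vvx^5 = vvx * vvx^4`; by FRO (`a = 2`) the coefficient of `vvx^4` is `1` at
`4 b^2`, `b` prime to `6`, else `0`. `HahnSeries.coeff_mul`: the coefficient at `N` is the number of pairs. -/
def V5_stmt : Prop := ∀ N : ℕ, (vvx ^ 5).coeff (N : ℤ) =
  (#{x ∈ range (N + 1) ×ˢ range (N + 1) | x.1.Coprime 6 ∧ x.2.Coprime 6 ∧ x.1 ^ 2 + 4 * x.2 ^ 2 = N} : ZMod 2)

open Classical in
/-- **V11** (medium, 70 lines; uses V1, `FRO`, `VTH`). `vvx^11 = vvx^3 * vvx^8`; the coefficient of `vvx^3` is `1` at `3 c^2`, `c` odd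
(VTH, `tht`), the one of `vvx^8` is `1` at `8 d^2`, `d` prime to `6` (FRO with `a = 3`, V1), and `0` elsewhere. -/
def V11_stmt : Prop := ∀ N : ℕ, (vvx ^ 11).coeff (N : ℤ) =
  (#{x ∈ range (N + 1) ×ˢ range (N + 1) | x.1 % 2 = 1 ∧ x.2.Coprime 6 ∧ 3 * x.1 ^ 2 + 8 * x.2 ^ 2 = N} : ZMod 2)

/-! ### The identity -/

/-- **F5** (short, 40 lines; uses `JW`, `JN`, `NEG`, `WM`). `ww^5` has the coefficients `JG ac 5`. Proof. Let `f ∈ WW` with
coefficients `JG ac 5` (JW). `f - ww^5 ∈ WW` has no negative part: by JN the coefficient of `f` at `M < 0` is `1` iff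
`M = -5`, and by WM the coefficient of `ww^5` at `M < 0` is `0` unless `24 ∣ M + 5` and `0 ≤ M + 5`, i.e. `M = -5`, where it is the
constant coefficient of `PP^5`, which is `1`. NEG: `f = ww^5`. -/
def F5_stmt : Prop := ∀ M : ℤ, (ww ^ 5).coeff M = JG ac 5 M

/-- **SPL** (medium, 120 lines; uses `WM`). If `f ∈ WW` has coefficients only at exponents `13 mod 24` then
`f * vvx^16 = g + c • vvx^5` with `g ∈ WW`, `c ∈ {0, 1}`. Proof. `f = ∑_{i ∈ s} ww^i`, `s` a finite set of positive integers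
(span over the field with two elements; `Submodule.mem_span_set` / `Finsupp`, or prove by span induction that every element of
`WW` is such a sum). By WM `ww^i` has coefficients only at exponents `-i mod 24`. Let `f' = ∑_{i ∈ s, i % 24 = 11} ww^i`,
`f'' = ` the rest. At exponents `13 mod 24` all terms of `f''` have coefficient `0`, at the other exponents `f` and `f'` have coefficient
`0`. So `f'' = 0` and `f = f'`. Now `ww * vvx = 1` (WM, second part; it is the definition of `vvx`), so `ww^i vvx^16 = ww^(i-16)` for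
`i ≥ 17` (in `WW`), and for `i ≤ 16`, `i % 24 = 11` we have `i = 11` and `ww^11 vvx^16 = vvx^5`. -/
def SPL_stmt : Prop := ∀ f ∈ WW, (∀ M : ℤ, f.coeff M ≠ 0 → M % 24 = 13) →
  ∃ g ∈ WW, ∃ c : ZMod 2, f * vvx ^ 16 = g + c • vvx ^ 5

/-- **ODR** (medium, 100 lines; uses V1, V16, SPL, `JW`, `JN`, `NEG`, `WM`). The identity up to the constant.
Proof. `f_n` := the element of `WW` for `JG ac n` (JW; `n` is prime to `6`). Its coefficient at `M` is a sum of terms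
`ac (n M/d^2)`, `d ∣ n`, `d ∣ M`, and `ac N ≠ 0` only for `N = 23 mod 24`; `d^2 = 1 mod 24`, so `n M = 23 mod 24` and `M = 13 mod 24`
(`11 * 11 = 1 mod 24`). SPL: `f_n vvx^16 = g + c • vvx^5`. For `u ∈ uu n` we have `16 u^2 < n` (`n` is odd) and `n - 16 u^2` is prime to
`6` (`n - 16 u^2 = 11 - 16 = 19 mod 24` as `u^2 = 1 mod 24`), let `f_(n-16u^2)` be its element of `WW`. `F := g + ∑_{u ∈ uu n} f_(n-16u^2) ∈ WW`. For
`M < 0`: the coefficient of `vvx^5` is `0` (V1: `vvx` has no term below `1`, hence `vvx^5` none below `5`; or WM), so the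
coefficient of `g` is that of `f_n vvx^16`, by V16 (`k = n`; `f_n` has no term below `-n` by JN) equal to `∑_{u ∈ uu (M+n)} JG ac n (M - 16 u^2)`, all
arguments negative, so by JN it is `1` iff `M - 16 u^2 = -n` for some `u ∈ uu (M+n)` (unique `u`), i.e. `M = -(n - 16 u^2)`. The coefficient of
the sum is (JN) the number of `u ∈ uu n` with `M = -(n - 16 u^2)`: the same (for `M < 0`, `16 u^2 = M + n` implies `u ∈ uu n`). So by
NEG `F = 0`, i.e. the claim (characteristic 2). -/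
def ODR_stmt : Prop := ∀ n : ℕ, n % 24 = 11 → ∃ c : ZMod 2, ∀ M : ℤ,
  (∑ u ∈ uu (M + n).toNat, JG ac n (M - 16 * (u : ℤ) ^ 2)) + (∑ u ∈ uu n, JG ac (n - 16 * u ^ 2) M) =
    c * (vvx ^ 5).coeff M

/-- **JSY** (short, 40 lines). Symmetry. Proof. `JG ac j M = ∑_{d ∣ j, d ∣ M} ac (j M/d^2)`: for positive `j, M` both index sets are the
set of the common divisors. -/
def JSY_stmt : Prop := ∀ j M : ℕ, 0 < j → 0 < M → JG ac j (M : ℤ) = JG ac M (j : ℤ)

/-- **ID16** (medium, 100 lines; uses ODR, F5, V1, V16, JSY, `JN`, `WM`). The identity.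
Proof. Evaluate ODR at `M = 5`: `(vvx^5).coeff 5 = 1` (for instance V5 or: `vvx^5 = x^5 + ` terms at exponents `≥ 29`). So
`c = ∑_{u ∈ uu (5+n)} JG ac n (5 - 16 u^2) + ∑_{u ∈ uu n} JG ac (n - 16 u^2) 5`. In the first sum `5 - 16 u^2 < 0`, so by JN the term is `1` iff
`16 u^2 = n + 5`. In the second sum `JG ac (n - 16 u^2) 5 = JG ac 5 (n - 16 u^2) = (ww^5).coeff (n - 16 u^2)` (JSY, F5; `0 < n - 16 u^2`). On the
other side `vvx^11 = ww^5 vvx^16` (`ww vvx = 1`) and V16 (`k = 5`) give `(vvx^11).coeff n = ∑_{u ∈ uu (n+5)} (ww^5).coeff (n - 16 u^2)`; for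
`16 u^2 > n` the argument is negative and the coefficient is `1` iff `n - 16 u^2 = -5` (F5, JN). So both agree. -/
def ID16_stmt : Prop := ∀ n : ℕ, n % 24 = 11 → ∀ M : ℤ,
  (∑ u ∈ uu (M + n).toNat, JG ac n (M - 16 * (u : ℤ) ^ 2)) + (∑ u ∈ uu n, JG ac (n - 16 * u ^ 2) M) =
    (vvx ^ 11).coeff (n : ℤ) * (vvx ^ 5).coeff M

/-! ### Quadratic forms -/

/-- **TS** (medium, 120 lines). Primes `p = 5 mod 24` are of the form `3 s^2 + 2 t^2`. Proof. `-6` is a square modulo `p`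
(quadratic reciprocity: `(-1/p) = 1`, `(2/p) = -1` as `p = 5 mod 8`, `(3/p) = (p/3) = -1`; Mathlib `ZMod.exists_sq_eq_neg_one_iff`,
`ZMod.exists_sq_eq_two_iff`, `legendreSym.quadratic_reciprocity`), say `r^2 = -6 mod p`. Thue (pigeonhole on the `(x, y)` with
`0 ≤ x, y ≤ ⌊√p⌋`): there are integers `(x, y) ≠ (0, 0)`, `|x|, |y| < √p`, `x = r y mod p`; so `x^2 + 6 y^2 = k p`, `1 ≤ k ≤ 6`. Modulo 3:
`x^2 = k p = 2k`, so `k ≠ 1, 4`. `k = 2`: `x = 2x'`, `p = 2x'^2 + 3y^2`. `k = 3`: `x = 3x'`, `p = 3x'^2 + 2y^2`. `k = 6`: `x = 6x'`,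
`p = 6x'^2 + y^2`, impossible modulo 3. `k = 5`: `5 (x^2+6y^2) = 3(x-2y)^2 + 2(x+3y)^2`; `x^2 + y^2 = 0 mod 5`, so `x = 2y` or `x = -2y mod 5`; changing
the sign of `y` we may assume `5 ∣ x - 2y`, hence `5 ∣ x + 3y`, and `p = 3((x-2y)/5)^2 + 2((x+3y)/5)^2`. Finally `p = 3s^2 + 2t^2` odd gives `s`
odd, and `p = 5 mod 8` gives `2t^2 = 5 - 3 = 2 mod 8`, `t` odd. -/
def TS_stmt : Prop := ∀ p : ℕ, p.Prime → p % 24 = 5 →
  ∃ s t : ℕ, s % 2 = 1 ∧ t % 2 = 1 ∧ p = 3 * s ^ 2 + 2 * t ^ 2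

/-- **S7** (medium, 100 lines; no other module). The solutions of `3 c^2 + 2 z^2 = 7 p`. Proof (only `→` is needed, `←` is by `ring`
in the integers). `3 (s^2 z^2 - t^2 c^2) = z^2 (p - 2t^2) - t^2 (7p - 2z^2) = p (z^2 - 7t^2)`, so `p` (prime, `> 3`) divides `sz - tc` or `sz + tc`. Also
`7 p^2 = (3sc + 2tz)^2 + 6 (sz - tc)^2 = (3sc - 2tz)^2 + 6 (sz + tc)^2`. If `sz - tc = k p`: `p` divides `3sc + 2tz = m p`, `m > 0`, `m^2 + 6k^2 = 7`, so
`m = 1`, `k = ±1`; then `p c = s(3sc+2tz) - 2t(sz-tc) = (s - 2kt) p`, `p z = t(3sc+2tz) + 3s(sz-tc) = (t + 3ks) p`. If `sz + tc = k p`: `k > 0`,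
`3sc - 2tz = m p`, `m^2 + 6k^2 = 7`, `k = 1`, `m = ±1`; `p c = s(3sc-2tz) + 2t(sz+tc) = (ms + 2t) p`, `p z = -t(3sc-2tz) + 3s(sz+tc) = (3s - mt) p`. All
four cases are in the list (`c, z > 0`). -/
def S7_stmt : Prop := ∀ p s t : ℕ, p.Prime → 3 < p → 0 < s → 0 < t → p = 3 * s ^ 2 + 2 * t ^ 2 →
  ∀ c z : ℤ, 0 < c → 0 < z → 3 * c ^ 2 + 2 * z ^ 2 = 7 * p →
    (c = |(s : ℤ) - 2 * t| ∧ z = 3 * s + t) ∨ (c = s + 2 * t ∧ z = |3 * (s : ℤ) - t|)

/-- **R11** (medium, 100 lines; uses TS, S7, V11). Proof. By V11 we count the `(c, d)`, `c` odd, `d` prime to `6`,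
`3 c^2 + 8 d^2 = 7 p`. With `z = 2 d` this is `3 c^2 + 2 z^2 = 7 p`, `z` even. `p = 3s^2 + 2t^2`, `s, t` odd (TS). Conversely both pairs of S7 are
solutions with `c` odd and `z` even and positive (`t ≠ 3s`, since otherwise `p = 21 s^2`; `s ≠ 2t`, `s` is odd). Their `d` are
`(3s+t)/2` and `|3s-t|/2`; their sum or difference is `3s`, odd, so exactly one of the two `d` is odd, and it is prime to `3`:
`8 d^2 = 7p - 3c^2 = 2 mod 3`. So exactly one solution is counted. -/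
def R11_stmt : Prop := ∀ p : ℕ, p.Prime → p % 24 = 5 → (vvx ^ 11).coeff ((7 * p : ℕ) : ℤ) = 1

/-- **R5** (medium, 90 lines; uses V5). Proof. By V5 we count the `(a, b)` prime to `6` with `a^2 + 4 b^2 = M`. Existence:
`Nat.Prime.sq_add_sq` (`M = 1 mod 4`): `M = a^2 + e^2`, one of them even, say `e = 2b`; `M = 5 mod 8` gives `4b^2 = 4 mod 8`, `b` odd; `M = 2 mod 3` gives that
`3` divides neither `a` nor `e`. Uniqueness: if `a^2 + 4b^2 = a'^2 + 4b'^2 = M` then `a^2 b'^2 - b^2 a'^2 = M (b'^2 - b^2)`, so `M` divides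
`ab' - ba'` or `ab' + ba'`; `M^2 = (aa' + 4bb')^2 + 4(ab' - ba')^2 = (aa' - 4bb')^2 + 4(ab' + ba')^2`. `M ∣ ab' + ba' > 0` gives `4 M^2 ≤ M^2`, false. `M ∣ ab' - ba'` and
`4 (ab'-ba')^2 < M^2` give `ab' = ba'`; `a, b` are coprime (a common prime factor `q` gives `q^2 ∣ M`), and `a', b'`, so `a = a'`, `b = b'`. -/
def R5_stmt : Prop := ∀ M : ℕ, M.Prime → M % 24 = 5 → (vvx ^ 5).coeff (M : ℤ) = 1

/-! ### Odd values -/

/-- **JP1** (short, 60 lines). The terms of the first type. Proof. The common divisors of `7p` and `m` are `1` and, if `7 ∣ m`, `7`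
(`p ≠ 7` since `p = 5 mod 24`, `p` does not divide `m`). So `JG ac (7p) m = ac (7pm) + [7 ∣ m] ac (7pm/49)`. If it is not `0` then one of the two values is not
`0`; `ac N ≠ 0` with `N > 0` means `N % 24 = 23` and `pp ((N+1)/24) ≠ 0`, i.e. `p(s)` is odd for `s = (N+1)/24`, `24 s = N + 1`. In the second
case `49 N = 7pm`, so `7 (24 s) = 7 N + 7 = p m + 7`. -/
def JP1_stmt : Prop := ∀ p m : ℕ, p.Prime → p % 24 = 5 → 0 < m → ¬ p ∣ m → JG ac (7 * p) (m : ℤ) ≠ 0 →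
  ∃ s : ℕ, Odd (Fintype.card (Nat.Partition s)) ∧ (24 * s = 7 * p * m + 1 ∨ 7 * (24 * s) = p * m + 7)

/-- **JP2** (short, 40 lines). The terms of the second type. Proof. `M` prime does not divide `j`, so the only common divisor is `1` and
`JG ac j M = ac (j M)`; `ac N ≠ 0`, `N > 0`, as in JP1. -/
def JP2_stmt : Prop := ∀ j M : ℕ, M.Prime → 0 < j → ¬ M ∣ j → JG ac j (M : ℤ) ≠ 0 →
  ∃ s : ℕ, Odd (Fintype.card (Nat.Partition s)) ∧ 24 * s = j * M + 1

/-- **EVO** (medium, 80 lines; uses ID16, R5, R11, JP1, JP2, `JN`). Every pair which is not exceptional leads to an odd value.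
Proof. ID16 with `n = 7p` (`7 * 5 = 35 = 11 mod 24`) and `M`: the right side is `1` (R5, R11). So some term on the left is not `0`. A term
of the first sum: `M - 16 u^2`. It is not `0` (`M` is odd). If it is negative, JN says `M - 16 u^2 = -7p`, i.e. `M + 7p = 16 u^2`, excluded. If
positive: `m = M - 16 u^2`, `p` does not divide `m`, JP1. A term of the second sum: `u ∈ uu (7p)`, `16 u^2 < 7p` (`7p` is odd), `j = 7p - 16 u^2`, `M` does not
divide `j`, JP2. -/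
def EVO_stmt : Prop := ∀ y M p : ℕ, (M, p) ∈ P5 (7 * y) ×ˢ P5 y → (M, p) ∉ Ex y →
  ∃ s : ℕ, Odd (Fintype.card (Nat.Partition s)) ∧ Rel M p s

/-! ### Counting -/

/-- **FIB** (medium, 120 lines). Multiplicity. Proof. `N = 24 s - 1 > 0`. For `(M, p)` in the set `M ≤ 14 y`, `7p ≤ 14 y`, so `N < 196 y^2` (`M`, `7p`,
and `M - 16u^2 ≤ M`). First two types: `p ∣ N` (`7N = p m`, `p ≠ 7` in the second) with `y < p`; at most two such primes, as three different
ones give `y^3 < N < 196 y^2`. For given `p` the number `m = M - 16 u^2` is `N/(7p)` or `7N/p`, and `u` is `≤ Nat.sqrt y` (`16 u^2 < M ≤ 14 y`), and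
`M = m + 16 u^2`: at most `2 * 2 * (Nat.sqrt y + 1)` pairs. Third type: `M ∣ N` with `M > 7y ≥ y` prime: at most two; then `7p = N/M + 16u^2`, `u ≤ Nat.sqrt y`:
at most `2 (Nat.sqrt y + 1)` pairs. -/
def FIB_stmt : Prop := ∀ y s : ℕ, 196 ≤ y → #(Fi y s) ≤ 6 * (Nat.sqrt y + 1)

/-- **EXO** (medium, 100 lines). Number of exceptional pairs. Proof. For each `p`: first type: `16 u^2 = M + 7p ≤ 28 y`, `u^2 < 4y`, `u < 2 Nat.sqrt y + 2`, and `u`
determines `M`: at most `2 (Nat.sqrt y + 1)`. Second type: `M = 16 u^2 + p k`, `k < 14` (`p k ≤ M ≤ 14 y < 14 p`), `u ≤ Nat.sqrt y`: at most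
`14 (Nat.sqrt y + 1)`. Third type: `7p - 16 u^2 = M k`, `k ≥ 1`, and `7p ≤ 14 y < 2 M`, so `k = 1`, `u ≤ Nat.sqrt y`: at most `Nat.sqrt y + 1`. -/
def EXO_stmt : Prop := ∀ y : ℕ, #(Ex y) ≤ 17 * (Nat.sqrt y + 1) * #(P5 y)

/-- **CNT** (short, 70 lines; uses EVO, FIB, EXO). Proof. Every pair of `P5 (7y) ×ˢ P5 y` outside `Ex y` leads to an `s` with `p(s)` odd (EVO) and
`24 s ≤ 196 y^2 + 1`, so `s ≤ 9 y^2` (`y ≥ 1`). So the number of these pairs is at most the sum of `#(Fi y s)` over the `s ≤ 9 y^2` with `p(s)` odd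
(`Finset.card_biUnion_le`). -/
def CNT_stmt : Prop := ∀ y : ℕ, 196 ≤ y →
  #(P5 (7 * y)) * #(P5 y) ≤ 6 * (Nat.sqrt y + 1) * sO (9 * y ^ 2) + 17 * (Nat.sqrt y + 1) * #(P5 y)

/-- **FIN** (medium, 120 lines; uses CNT). Proof. `Pool.Agent.helper7.OC.primes_ap 24 5` (Pool/Agent/helper29/OC/PIAP.lean) gives `c₀ > 0`, `x₀` with
`#(P5 x) ≥ c₀ x/log x` for `x ≥ x₀`. For large `y`: `17 (√y + 1) ≤ (1/2) c₀ 7y/log(7y) ≤ #(P5 (7y))/2`, so by CNT
`6 (√y + 1) sO (9y^2) ≥ (1/2) #(P5 (7y)) #(P5 y) ≥ c₁ y^2/(log y)^2` and `sO (9 y^2) ≥ c₂ y^(3/2)/(log y)^2`. For large `X` take `y = Nat.sqrt X / 3`: `9 y^2 ≤ X`,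
`y ≥ √X/4`, `log y ≤ log X`, `sO` is monotone. -/
def FIN_stmt : Prop := ∃ c : ℝ, 0 < c ∧ ∃ X₀ : ℕ, ∀ X : ℕ, X₀ ≤ X →
  c * (X : ℝ) ^ (3 / 4 : ℝ) / Real.log X ^ 2 ≤ (sO X : ℝ)

end Pool.Agent.OD
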