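import Pool.Agent.helper7.EP.AllA
import Pool.Agent.helper83.OD.Spec
import Pool.Agent.helper8.OD.EXO
import Pool.Agent.helper66.OD.F5
import Pool.Agent.helper40.OD.FIB
import Pool.Agent.helper12.OD.FIN
import Pool.Agent.helper87.OD.ID16
import Pool.Agent.helper60.OD.JP1
import Pool.Agent.helper63.OD.JP2
import Pool.Agent.helper23.OD.JSY
import Pool.Agent.helper11.OD.ODR
import Pool.Agent.helper72.OD.R11
import Pool.Agent.helper62.OD.R5
import Pool.Agent.helper24.OD.S7
import Pool.Agent.helper51.OD.SPL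
import Pool.Agent.helper67.OD.TS
import Pool.Agent.helper33.OD.V16
import Pool.Agent.helper83.OD.CNT
import Pool.Agent.helper11.OD.EVO
import Pool.Agent.helper59.OD.V1
import Pool.Agent.helper89.OD.V11
import Pool.Agent.helper46.OD.V5

/-!
# Project od: (MP_ebc808_nt), assembly
-/

set_option autoImplicit false

namespace Pool.Agent.OD

open Pool.Agent.EP

theorem all_V16 : V16_stmt := V16 FRO V1
theorem all_V5 : V5_stmt := V5 V1 FRO
theorem all_V11 : V11_stmt := V11 V1 FRO VTH
theorem all_F5 : F5_stmt := F5 all_JW JN all_NEG WM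
theorem all_SPL : SPL_stmt := SPL WM
theorem all_ODR : ODR_stmt := ODR all_V16 all_SPL all_JW JN all_NEG
theorem all_ID16 : ID16_stmt := ID16 all_ODR all_F5 all_V5 all_V16 JSY JN WM
theorem all_R11 : R11_stmt := R11 TS S7 all_V11
theorem all_R5 : R5_stmt := R5 all_V5
theorem all_EVO : EVO_stmt := EVO all_ID16 all_R5 all_R11 JP1 JP2 JN
theorem all_CNT : CNT_stmt := CNT all_EVO FIB EXO
theorem all_FIN : FIN_stmt := FIN all_CNT

end Pool.Agent.OD
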