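import Pool.Agent.helper21.OD.SpecA

set_option autoImplicit false

/-! # OD row BJG: from scalar symbols of level `ℓ` to modular symbols of level one -/

namespace Pool.Agent.OD

open MvPolynomial Matrix

/-- the matrix `(1 0; 0 ℓ)` -/
def BJG_al (t : ℤ) (ℓ : ℕ) : Mat t := !![1, 0; 0, ((ℓ : ℕ) : Oz t)]

/-- the polynomial `(a Y - b X)^j (a' W - b' Z)^j` -/
noncomputable def BJG_pol {κ : Type} [Field κ] (j : ℕ) (a b a' b' : κ) : Pol κ :=
  (C a * X 1 - C b * X 0) ^ j * (C a' * X 3 - C b' * X 2) ^ j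

/-- one term -/
noncomputable def BJG_term {t : ℤ} {κ : Type} [Field κ] (π : Oz t →+* κ) (ℓ j : ℕ)
    (ψ : Vec t → Vec t → κ) (g : Mat t) : Sy t κ :=
  fun u v => C (ψ ((BJG_al t ℓ * g) *ᵥ u) ((BJG_al t ℓ * g) *ᵥ v)) *
    BJG_pol j (π (g 0 0)) (π (g 0 1)) (π (star (g 0 0))) (π (star (g 0 1)))

lemma BJG_pol_smul {κ : Type} [Field κ] (j : ℕ) (s s' a b a' b' : κ) :
    BJG_pol j (s * a) (s * b) (s' * a') (s' * b') = C ((s * s') ^ j) * BJG_pol j a b a' b' := by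
  unfold BJG_pol
  rw [map_mul, map_mul, map_mul, map_mul, map_pow, map_mul, mul_pow (C s) (C s')]
  have e1 : (C s * C a * X 1 - C s * C b * X 0 : Pol κ) = C s * (C a * X 1 - C b * X 0) := by ring
  have e2 : (C s' * C a' * X 3 - C s' * C b' * X 2 : Pol κ) = C s' * (C a' * X 3 - C b' * X 2) := by ring
  rw [e1, e2, mul_pow, mul_pow]
  ring

lemma BJG_hom {κ : Type} [Field κ] (j : ℕ) (c a b a' b' : κ) :
    BiHom j (C c * BJG_pol j a b a' b') := by
  have hlin : ∀ (w : Fin 4 → ℕ) (i i' : Fin 4) (a b : κ), w i = w i' →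
      IsWeightedHomogeneous w (C a * X i - C b * X i' : Pol κ) (w i) := by
    intro w i i' a b hw
    have h1 : IsWeightedHomogeneous w (C a * X i : Pol κ) (w i) := by
      have := (isWeightedHomogeneous_C w a).mul (isWeightedHomogeneous_X κ w i)
      rwa [zero_add] at this
    have h2 : IsWeightedHomogeneous w (C (-b) * X i' : Pol κ) (w i) := by
      have := (isWeightedHomogeneous_C w (-b)).mul (isWeightedHomogeneous_X κ w i')
      rwa [zero_add, ← hw] at this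
    have e : (C a * X i - C b * X i' : Pol κ) = C a * X i + C (-b) * X i' := by
      rw [map_neg]
      ring
    rw [e]
    exact h1.add h2
  unfold BJG_pol
  constructor
  · have h1 := (hlin (![1, 1, 0, 0] : Fin 4 → ℕ) 1 0 a b rfl).pow j
    have h2 := (hlin (![1, 1, 0, 0] : Fin 4 → ℕ) 3 2 a' b' rfl).pow j
    have h3 := (isWeightedHomogeneous_C (![1, 1, 0, 0] : Fin 4 → ℕ) c).mul (h1.mul h2)
    have e : (0 : ℕ) + (j • (![1, 1, 0, 0] : Fin 4 → ℕ) 1 + j • (![1, 1, 0, 0] : Fin 4 → ℕ) 3) = j := by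
      simp
    rw [e] at h3
    exact h3
  · have h1 := (hlin (![0, 0, 1, 1] : Fin 4 → ℕ) 1 0 a b rfl).pow j
    have h2 := (hlin (![0, 0, 1, 1] : Fin 4 → ℕ) 3 2 a' b' rfl).pow j
    have h3 := (isWeightedHomogeneous_C (![0, 0, 1, 1] : Fin 4 → ℕ) c).mul (h1.mul h2)
    have e : (0 : ℕ) + (j • (![0, 0, 1, 1] : Fin 4 → ℕ) 1 + j • (![0, 0, 1, 1] : Fin 4 → ℕ) 3) = j := by
      simp
    rw [e] at h3
    exact h3

lemma BJG_bT {t : ℤ} {κ : Type} [Field κ] (π : Oz t →+* κ) (ℓ j : ℕ) (ψ : Vec t → Vec t → κ)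
    (u v : Vec t) :
    bT π ℓ j ψ u v = ∑ i : Option (Fin ℓ × Fin ℓ), BJG_term π ℓ j ψ (gI t i) u v := by
  rw [Fintype.sum_option, add_comm]
  unfold bT bU
  congr 1
  · refine Finset.sum_congr rfl fun x _ => ?_
    have e : BJG_al t ℓ * gI t (some x) = !![1, rep t x; 0, ((ℓ : ℕ) : Oz t)] := by
      simp [BJG_al, gI]
    unfold BJG_term lin BJG_pol
    rw [e]
    simp [gI]
  · have e : BJG_al t ℓ * gI t (none : Option (Fin ℓ × Fin ℓ)) = !![0, -1; ((ℓ : ℕ) : Oz t), 0] := by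
      simp [BJG_al, gI]
    unfold BJG_term BJG_pol
    rw [e]
    simp [gI]

lemma BJG_tors {t : ℤ} {ℓ : ℕ} (hℓ : ℓ ≠ 0) (z : Oz t) (h : ((ℓ : ℕ) : Oz t) * z = 0) : z = 0 := by
  have h' : ℓ • z = 0 := by rw [nsmul_eq_mul]; exact h
  have h1 := congrArg QuadraticAlgebra.re h'
  have h2 := congrArg QuadraticAlgebra.im h'
  simp [hℓ] at h1 h2
  exact QuadraticAlgebra.ext h1 h2

lemma BJG_ne {t : ℤ} {ℓ : ℕ} (hℓ : ℓ ≠ 0) (i : Option (Fin ℓ × Fin ℓ)) (u : Vec t) (hu : u ≠ 0) :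
    (BJG_al t ℓ * gI t i) *ᵥ u ≠ 0 := by
  intro h
  apply hu
  rcases i with _ | x
  · have e : BJG_al t ℓ * gI t (none : Option (Fin ℓ × Fin ℓ)) = !![0, -1; ((ℓ : ℕ) : Oz t), 0] := by
      simp [BJG_al, gI]
    rw [e] at h
    have h0 := congrFun h 0
    have h1 := congrFun h 1
    simp [Matrix.mulVec, dotProduct, Fin.sum_univ_two] at h0 h1
    have h2 := BJG_tors hℓ (u 0) (by simpa using h1)
    funext i
    fin_cases i
    · exact h2
    · exact h0
  · have e : BJG_al t ℓ * gI t (some x) = !![1, rep t x; 0, ((ℓ : ℕ) : Oz t)] := by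
      simp [BJG_al, gI]
    rw [e] at h
    have h0 := congrFun h 0
    have h1 := congrFun h 1
    simp [Matrix.mulVec, dotProduct, Fin.sum_univ_two] at h0 h1
    have h2 := BJG_tors hℓ (u 1) (by simpa using h1)
    rw [h2, mul_zero, add_zero] at h0
    funext i
    fin_cases i
    · exact h0
    · exact h2

/-- the norm of the determinant -/
lemma BJG_det {t : ℤ} (ht : t = 0 ∨ t = 1) (hNRU : NRU_stmt) {κ : Type} [Field κ] (π : Oz t →+* κ)
    (γ : GO t) : π γ.val.det * π (star γ.val.det) = 1 := by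
  have h1 : IsUnit γ.val.det := by
    rw [← Matrix.isUnit_iff_isUnit_det]
    exact γ.isUnit
  rw [← map_mul, hNRU t ht _ h1, map_one]

/-- (1) -/
lemma BJG_left {t : ℤ} (ht : t = 0 ∨ t = 1) (hNRU : NRU_stmt) (hCNJ : CNJ_stmt) {ℓ : ℕ}
    (hℓ : ℓ ≠ 0) {κ : Type} [Field κ] (π : Oz t →+* κ) (hπ : ((ℓ : ℕ) : κ) = 0) (j : ℕ)
    (ψ : Vec t → Vec t → κ) (hψ : IsSc π j (ℓ ^ 1) ψ) (h : GO t)
    (hh : ((ℓ : ℕ) : Oz t) ∣ h.val 0 1) (g : Mat t) (u v : Vec t) :
    BJG_term π ℓ j ψ (h.val * g) u v = BJG_term π ℓ j ψ g u v := by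
  obtain ⟨h', e1, e2, e3⟩ := hCNJ t ℓ hℓ h hh
  obtain ⟨c, hc⟩ := hh
  have hz1 : π (h.val 0 1) = 0 := by
    rw [hc, map_mul, map_natCast, hπ, zero_mul]
  have hz2 : π (star (h.val 0 1)) = 0 := by
    rw [hc, star_mul, star_natCast, map_mul, map_natCast, hπ, mul_zero]
  have hM : BJG_al t ℓ * (h.val * g) = h'.val * (BJG_al t ℓ * g) := by
    rw [← Matrix.mul_assoc, ← Matrix.mul_assoc]
    congr 1
  have hψ' : ψ ((BJG_al t ℓ * (h.val * g)) *ᵥ u) ((BJG_al t ℓ * (h.val * g)) *ᵥ v) =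
      π (h.val 1 1 * star (h.val 1 1)) ^ j *
        ψ ((BJG_al t ℓ * g) *ᵥ u) ((BJG_al t ℓ * g) *ᵥ v) := by
    have hv : ∀ z : Vec t, (h'.val * (BJG_al t ℓ * g)) *ᵥ z = h'.val *ᵥ ((BJG_al t ℓ * g) *ᵥ z) :=
      fun z => (Matrix.mulVec_mulVec _ _ _).symm
    have hdv : ((ℓ ^ 1 : ℕ) : Oz t) ∣ h'.val 1 0 := by
      rw [e2, pow_one]
      exact Dvd.intro _ rfl
    rw [hM, hv, hv, hψ.equiv h' _ _ hdv, e3]
  have hp : BJG_pol j (π ((h.val * g) 0 0)) (π ((h.val * g) 0 1)) (π (star ((h.val * g) 0 0)))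
      (π (star ((h.val * g) 0 1))) = C ((π (h.val 0 0) * π (star (h.val 0 0))) ^ j) *
      BJG_pol j (π (g 0 0)) (π (g 0 1)) (π (star (g 0 0))) (π (star (g 0 1))) := by
    rw [← BJG_pol_smul]
    congr 1
    · rw [Matrix.mul_apply, Fin.sum_univ_two, map_add, map_mul, map_mul, hz1, zero_mul, add_zero]
    · rw [Matrix.mul_apply, Fin.sum_univ_two, map_add, map_mul, map_mul, hz1, zero_mul, add_zero]
    · rw [Matrix.mul_apply, Fin.sum_univ_two, star_add, star_mul, star_mul, map_add, map_mul, map_mul,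
        hz2, mul_zero, add_zero, mul_comm]
    · rw [Matrix.mul_apply, Fin.sum_univ_two, star_add, star_mul, star_mul, map_add, map_mul, map_mul,
        hz2, mul_zero, add_zero, mul_comm]
  have hdet := BJG_det ht hNRU π h
  have hd1 : π h.val.det = π (h.val 0 0) * π (h.val 1 1) := by
    rw [Matrix.det_fin_two, map_sub, map_mul, map_mul, hz1, zero_mul, sub_zero]
  have hd2 : π (star h.val.det) = π (star (h.val 0 0)) * π (star (h.val 1 1)) := by
    rw [Matrix.det_fin_two, star_sub, star_mul, star_mul, map_sub, map_mul, map_mul, hz2, mul_zero,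
      sub_zero, mul_comm]
  have hone : π (h.val 1 1 * star (h.val 1 1)) ^ j * (π (h.val 0 0) * π (star (h.val 0 0))) ^ j = 1 := by
    rw [← mul_pow, map_mul]
    have : π (h.val 1 1) * π (star (h.val 1 1)) * (π (h.val 0 0) * π (star (h.val 0 0))) = 1 := by
      rw [← hdet, hd1, hd2]
      ring
    rw [this, one_pow]
  unfold BJG_term
  rw [hψ', hp, C_mul]
  have hC : ∀ (s s' : κ) (P Q : Pol κ), C s * P * (C s' * Q) = C (s * s') * (P * Q) := by
    intro s s' P Q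
    rw [C_mul]
    ring
  rw [hC, hone, map_one, one_mul]

/-- (2) -/
lemma BJG_right {t : ℤ} (ht : t = 0 ∨ t = 1) (hNRU : NRU_stmt) {κ : Type} [Field κ]
    (π : Oz t →+* κ) (ℓ j : ℕ) (ψ : Vec t → Vec t → κ) (γ : GO t) (g : Mat t) (u v : Vec t) :
    act π γ.val (BJG_term π ℓ j ψ (g * γ.val) u v) =
      BJG_term π ℓ j ψ g (γ.val *ᵥ u) (γ.val *ᵥ v) := by
  have hdet := BJG_det ht hNRU π γ
  have hpt : act π γ.val (BJG_pol j (π ((g * γ.val) 0 0)) (π ((g * γ.val) 0 1))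
      (π (star ((g * γ.val) 0 0))) (π (star ((g * γ.val) 0 1)))) =
      BJG_pol j (π (g 0 0)) (π (g 0 1)) (π (star (g 0 0))) (π (star (g 0 1))) := by
    have h1 : act π γ.val (C (π ((g * γ.val) 0 0)) * X 1 - C (π ((g * γ.val) 0 1)) * X 0) =
        C (π γ.val.det) * (C (π (g 0 0)) * X 1 - C (π (g 0 1)) * X 0) := by
      rw [Matrix.mul_apply, Matrix.mul_apply, Fin.sum_univ_two, Fin.sum_univ_two, Matrix.det_fin_two]
      simp only [act, map_sub, map_mul, map_add, aeval_X, algHom_C, algebraMap_eq,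
        Matrix.cons_val_zero, Matrix.cons_val_one]
      ring
    have h2 : act π γ.val (C (π (star ((g * γ.val) 0 0))) * X 3 -
        C (π (star ((g * γ.val) 0 1))) * X 2) =
        C (π (star γ.val.det)) * (C (π (star (g 0 0))) * X 3 - C (π (star (g 0 1))) * X 2) := by
      rw [Matrix.mul_apply, Matrix.mul_apply, Fin.sum_univ_two, Fin.sum_univ_two, Matrix.det_fin_two]
      have e2 : (![C (π (γ.val 0 0)) * X 0 + C (π (γ.val 1 0)) * X 1,
        C (π (γ.val 0 1)) * X 0 + C (π (γ.val 1 1)) * X 1,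
        C (π (star (γ.val 0 0))) * X 2 + C (π (star (γ.val 1 0))) * X 3,
        C (π (star (γ.val 0 1))) * X 2 + C (π (star (γ.val 1 1))) * X 3] : Fin 4 → Pol κ) 2 =
        C (π (star (γ.val 0 0))) * X 2 + C (π (star (γ.val 1 0))) * X 3 := rfl
      have e3 : (![C (π (γ.val 0 0)) * X 0 + C (π (γ.val 1 0)) * X 1,
        C (π (γ.val 0 1)) * X 0 + C (π (γ.val 1 1)) * X 1,
        C (π (star (γ.val 0 0))) * X 2 + C (π (star (γ.val 1 0))) * X 3,
        C (π (star (γ.val 0 1))) * X 2 + C (π (star (γ.val 1 1))) * X 3] : Fin 4 → Pol κ) 3 =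
        C (π (star (γ.val 0 1))) * X 2 + C (π (star (γ.val 1 1))) * X 3 := rfl
      simp only [act, map_sub, map_mul, map_add, aeval_X, algHom_C, algebraMap_eq, star_add,
        star_mul, star_sub, e2, e3]
      ring
    unfold BJG_pol
    rw [map_mul, map_pow, map_pow, h1, h2, mul_pow, mul_pow]
    have h3 : ∀ P Q : Pol κ, C (π γ.val.det) ^ j * P * (C (π (star γ.val.det)) ^ j * Q) =
        C ((π γ.val.det * π (star γ.val.det)) ^ j) * (P * Q) := by
      intro P Q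
      rw [map_pow, map_mul]
      ring
    rw [h3, hdet, one_pow, map_one, one_mul]
  have hv : ∀ z : Vec t, (BJG_al t ℓ * (g * γ.val)) *ᵥ z = (BJG_al t ℓ * g) *ᵥ (γ.val *ᵥ z) := by
    intro z
    rw [Matrix.mulVec_mulVec, Matrix.mul_assoc]
  unfold BJG_term
  rw [map_mul, hpt, algHom_C, algebraMap_eq, hv, hv]

theorem BJG (hPRM : PRM_stmt) (hCNJ : CNJ_stmt) (hNRU : NRU_stmt) : BJG_stmt := by
  intro t ht ℓ hℓ hin κ _ π hπ j ψ hψ
  have hℓ0 : ℓ ≠ 0 := hℓ.ne_zero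
  refine ⟨fun v => ?_, fun u => ?_, fun u v w hu hv hw => ?_, fun c u v hc => ?_,
    fun c u v hc => ?_, fun u v => ?_, fun γ u v _ => ?_⟩
  · rw [BJG_bT]
    refine Finset.sum_eq_zero fun i _ => ?_
    unfold BJG_term
    rw [Matrix.mulVec_zero, hψ.cus.zero_left, map_zero, zero_mul]
  · rw [BJG_bT]
    refine Finset.sum_eq_zero fun i _ => ?_
    unfold BJG_term
    rw [Matrix.mulVec_zero, hψ.cus.zero_right, map_zero, zero_mul]
  · rw [BJG_bT, BJG_bT, BJG_bT, ← Finset.sum_add_distrib]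
    refine Finset.sum_congr rfl fun i _ => ?_
    unfold BJG_term
    rw [← add_mul, ← map_add, hψ.cus.add _ _ _ (BJG_ne hℓ0 i u hu) (BJG_ne hℓ0 i v hv)
      (BJG_ne hℓ0 i w hw)]
  · rw [BJG_bT, BJG_bT]
    refine Finset.sum_congr rfl fun i _ => ?_
    unfold BJG_term
    rw [Matrix.mulVec_smul, hψ.cus.smul_left c _ _ hc]
  · rw [BJG_bT, BJG_bT]
    refine Finset.sum_congr rfl fun i _ => ?_
    unfold BJG_term
    rw [Matrix.mulVec_smul, hψ.cus.smul_right c _ _ hc]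
  · rw [BJG_bT]
    have h1 : ∀ i : Option (Fin ℓ × Fin ℓ), BiHom j (BJG_term π ℓ j ψ (gI t i) u v) :=
      fun i => BJG_hom j _ _ _ _ _
    exact ⟨IsWeightedHomogeneous.sum _ _ _ fun i _ => (h1 i).1,
      IsWeightedHomogeneous.sum _ _ _ fun i _ => (h1 i).2⟩
  · obtain ⟨σ, hσ⟩ := hPRM t ℓ hℓ hin γ
    rw [one_smul, BJG_bT, BJG_bT, map_sum]
    have h1 : ∀ i : Option (Fin ℓ × Fin ℓ), BJG_term π ℓ j ψ (gI t i) (γ.val *ᵥ u) (γ.val *ᵥ v) =
        act π γ.val (BJG_term π ℓ j ψ (gI t (σ i)) u v) := by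
      intro i
      obtain ⟨h, hh, e⟩ := hσ i
      rw [← BJG_right ht hNRU π ℓ j ψ γ (gI t i) u v, e, BJG_left ht hNRU hCNJ hℓ0 π hπ j ψ hψ h hh]
    rw [Finset.sum_congr rfl fun i _ => h1 i]
    exact Equiv.sum_comp σ fun i => act π γ.val (BJG_term π ℓ j ψ (gI t i) u v)

end Pool.Agent.OD
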